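import Pool.Agent.helper26.IM.SpecA

/-!
# im:OVD: divisibility of the norm
-/

set_option autoImplicit false

namespace Pool.Agent.helper26.IM

open Finset Pool.Agent.RRank Pool.Agent.helper35.MR

open Polynomial

theorem OVD_fib {K S ι : Type} [Field K] [CommRing S] [Algebra K[X] S] [Fintype ι]
    [DecidableEq ι] (b : Module.Basis ι K[X] S) (c : K) (hc : (Algebra.discr K[X] b).eval c ≠ 0)
    (a : S) (N : ℕ) (r : S) (hN : a ^ N = algebraMap K[X] S (X - C c) * r) (i : ι) :
    (X - C c) ∣ b.repr a i := by
  -- the fibre representation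
  let ψ : S →+* Matrix ι ι K :=
    ((evalRingHom c).mapMatrix).comp (Algebra.leftMulMatrix b : S →+* Matrix ι ι K[X])
  have hψX : ψ (algebraMap K[X] S (X - C c)) = 0 := by
    show (evalRingHom c).mapMatrix (Algebra.leftMulMatrix b (algebraMap K[X] S (X - C c))) = 0
    rw [AlgHom.commutes]
    ext i j
    rw [RingHom.mapMatrix_apply, Matrix.map_apply, Matrix.algebraMap_matrix_apply]
    split_ifs <;> simp
  have htr : ∀ y : S, (Algebra.trace K[X] S (a * y)).eval c = 0 := by
    intro y
    have hnil : IsNilpotent (ψ (a * y)) := by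
      refine ⟨N, ?_⟩
      rw [← map_pow, mul_pow, hN, map_mul, map_mul, hψX, zero_mul, zero_mul]
    have h1 := (Matrix.isNilpotent_trace_of_isNilpotent hnil).eq_zero
    rw [Algebra.trace_eq_matrix_trace b]
    have h2 : Matrix.trace (ψ (a * y)) =
        (evalRingHom c) (Matrix.trace (Algebra.leftMulMatrix b (a * y))) := by
      simp only [Matrix.trace, map_sum]
      rfl
    rw [h1] at h2
    exact h2.symm
  have hv : (fun i => (b.repr a i).eval c) = 0 := by
    refine Matrix.eq_zero_of_vecMul_eq_zero (M := (evalRingHom c).mapMatrix (Algebra.traceMatrix K[X] b))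
      ?_ ?_
    · rw [← RingHom.map_det, ← Algebra.discr_def]
      exact hc
    · funext j
      have h3 := htr (b j)
      have h4 : a * b j = ∑ i, b.repr a i • (b i * b j) := by
        conv_lhs => rw [← b.sum_repr a]
        rw [Finset.sum_mul]
        exact Finset.sum_congr rfl fun i _ => smul_mul_assoc _ _ _
      rw [h4, map_sum, eval_finsetSum] at h3
      rw [Pi.zero_apply, ← h3]
      simp only [Matrix.vecMul, dotProduct]
      refine Finset.sum_congr rfl fun i _ => ?_
      rw [map_smul, smul_eq_mul, eval_mul]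
      rfl
  exact dvd_iff_isRoot.2 (congrFun hv i)

theorem OVD_pt {K S : Type} [Field K] [IsAlgClosed K] [CommRing S] [Algebra K S] [Algebra K[X] S]
    [IsScalarTower K K[X] S] (hint : Algebra.IsIntegral K[X] S) (c : K) (a : S)
    (h : ∀ g : S →ₐ[K] K, g (algebraMap K[X] S X) = c → g a = 0) :
    ∃ (N : ℕ) (r : S), a ^ N = algebraMap K[X] S (X - C c) * r := by
  have hmem : a ∈ (Ideal.span {algebraMap K[X] S (X - C c)}).radical := by
    rw [Ideal.radical_eq_sInf, Ideal.mem_sInf]
    rintro J ⟨hJ, hJp⟩
    have hXJ : algebraMap K[X] S (X - C c) ∈ J := hJ (Ideal.subset_span rfl)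
    have hXc : Ideal.Quotient.mk J (algebraMap K[X] S X) = algebraMap K (S ⧸ J) c := by
      have h1 : Ideal.Quotient.mk J (algebraMap K[X] S (X - C c)) = 0 :=
        Ideal.Quotient.eq_zero_iff_mem.2 hXJ
      rw [map_sub, map_sub, sub_eq_zero] at h1
      rw [h1, ← Polynomial.algebraMap_eq, ← IsScalarTower.algebraMap_apply]
      rfl
    have hcomp : (Ideal.Quotient.mk J).comp (algebraMap K[X] S) =
        (algebraMap K (S ⧸ J)).comp (evalRingHom c) := by
      apply Polynomial.ringHom_ext
      · intro x
        rw [RingHom.comp_apply, RingHom.comp_apply, coe_evalRingHom, eval_C,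
          ← Polynomial.algebraMap_eq, ← IsScalarTower.algebraMap_apply]
        rfl
      · rw [RingHom.comp_apply, RingHom.comp_apply, coe_evalRingHom, eval_X, hXc]
    have hI : Algebra.IsIntegral K (S ⧸ J) := by
      refine ⟨fun z => ?_⟩
      obtain ⟨z0, rfl⟩ := Ideal.Quotient.mk_surjective z
      have h1 : ((Ideal.Quotient.mk J).comp (algebraMap K[X] S)).IsIntegralElem
          (Ideal.Quotient.mk J z0) := RingHom.IsIntegralElem.map (hint.isIntegral z0) _
      rw [hcomp] at h1
      exact h1.of_comp
    have hbij : Function.Bijective (algebraMap K (S ⧸ J)) :=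
      IsAlgClosed.algebraMap_bijective_of_isIntegral
    let e : K ≃ₐ[K] (S ⧸ J) := AlgEquiv.ofBijective (Algebra.ofId K (S ⧸ J)) hbij
    have h1 := h (e.symm.toAlgHom.comp (Ideal.Quotient.mkₐ K J)) (by
      show e.symm (Ideal.Quotient.mk J (algebraMap K[X] S X)) = c
      rw [hXc, AlgEquiv.symm_apply_eq]
      rfl)
    have h2 : e.symm (Ideal.Quotient.mk J a) = 0 := h1
    rw [AlgEquiv.symm_apply_eq, map_zero] at h2
    exact Ideal.Quotient.eq_zero_iff_mem.1 h2
  obtain ⟨N, hN⟩ := hmem
  obtain ⟨r, hr⟩ := Ideal.mem_span_singleton'.1 hN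
  exact ⟨N, r, by rw [← hr, mul_comm]⟩

theorem OVD_discr {K E ι : Type} [Field K] [Field E] [Algebra K[X] E] [Algebra (RatFunc K) E]
    [IsScalarTower K[X] (RatFunc K) E] [FiniteDimensional (RatFunc K) E]
    [Algebra.IsSeparable (RatFunc K) E] (s : Set E) [Fintype ι] [DecidableEq ι]
    (b : Module.Basis ι K[X] (Algebra.adjoin K[X] s)) : Algebra.discr K[X] b ≠ 0 := by
  have hli0 : LinearIndependent K[X] (fun i => (b i : E)) :=
    b.linearIndependent.map' (Algebra.adjoin K[X] s).val.toLinearMap
      (LinearMap.ker_eq_bot.2 Subtype.val_injective)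
  have hli : LinearIndependent (RatFunc K) (fun i => (b i : E)) :=
    (LinearIndependent.iff_fractionRing K[X] (RatFunc K)).1 hli0
  have hle : Algebra.adjoin K[X] s ≤
      ((IntermediateField.adjoin (RatFunc K) s).toSubalgebra).restrictScalars K[X] :=
    Algebra.adjoin_le (IntermediateField.subset_adjoin (RatFunc K) s)
  have hsub : ∀ x ∈ Algebra.adjoin K[X] s,
      x ∈ Submodule.span (RatFunc K) (Set.range fun i => (b i : E)) := by
    intro x hx
    have h1 := b.sum_repr ⟨x, hx⟩
    have h2 : x = ∑ i, algebraMap K[X] (RatFunc K) (b.repr ⟨x, hx⟩ i) • (b i : E) := by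
      have h3 := congrArg (fun z : Algebra.adjoin K[X] s => (z : E)) h1
      simp only [AddSubmonoidClass.coe_finsetSum, Subalgebra.coe_smul] at h3
      exact h3.symm.trans (Finset.sum_congr rfl fun i _ => (algebraMap_smul (RatFunc K) _ _).symm)
    rw [h2]
    exact Submodule.sum_mem _ fun i _ => Submodule.smul_mem _ _ (Submodule.subset_span ⟨i, rfl⟩)
  have heq : Submodule.span (RatFunc K) (Set.range fun i => (b i : E)) =
      Subalgebra.toSubmodule (IntermediateField.adjoin (RatFunc K) s).toSubalgebra := by
    apply le_antisymm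
    · rw [Submodule.span_le]
      rintro _ ⟨i, rfl⟩
      exact hle (b i).2
    · rw [IntermediateField.adjoin_toSubalgebra, Algebra.adjoin_eq_span, Submodule.span_le]
      intro x hx
      apply hsub
      have h1 : Submonoid.closure s ≤ (Algebra.adjoin K[X] s).toSubmonoid :=
        Submonoid.closure_le.2 Algebra.subset_adjoin
      exact h1 hx
  let b' : Module.Basis ι (RatFunc K) (IntermediateField.adjoin (RatFunc K) s) :=
    (Module.Basis.span hli).map (LinearEquiv.ofEq _ _ heq)
  have hb' : ∀ i, ((b' i : IntermediateField.adjoin (RatFunc K) s) : E) = b i := by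
    intro i
    show (((Module.Basis.span hli).map (LinearEquiv.ofEq _ _ heq)) i : E) = b i
    rw [Module.Basis.map_apply, LinearEquiv.coe_ofEq_apply, Module.Basis.coe_span_apply]
  have htr : ∀ (z : Algebra.adjoin K[X] s) (z' : IntermediateField.adjoin (RatFunc K) s),
      (z' : E) = z → Algebra.trace (RatFunc K) (IntermediateField.adjoin (RatFunc K) s) z' =
        algebraMap K[X] (RatFunc K) (Algebra.trace K[X] (Algebra.adjoin K[X] s) z) := by
    intro z z' hz
    rw [Algebra.trace_eq_matrix_trace b', Algebra.trace_eq_matrix_trace b]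
    simp only [Matrix.trace, map_sum, Matrix.diag_apply]
    refine Finset.sum_congr rfl fun i _ => ?_
    rw [Algebra.leftMulMatrix_eq_repr_mul, Algebra.leftMulMatrix_eq_repr_mul]
    have h1 : z' * b' i = ∑ k, algebraMap K[X] (RatFunc K) (b.repr (z * b i) k) • b' k := by
      apply Subtype.ext
      have h2 := congrArg (fun z : Algebra.adjoin K[X] s => (z : E)) (b.sum_repr (z * b i))
      simp only [AddSubmonoidClass.coe_finsetSum, Subalgebra.coe_smul, Subalgebra.coe_mul] at h2
      rw [IntermediateField.coe_mul, hz, hb', ← h2, AddSubmonoidClass.coe_finsetSum]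
      refine Finset.sum_congr rfl fun k _ => ?_
      rw [IntermediateField.coe_smul, hb', algebraMap_smul]
    rw [h1, b'.repr_sum_self]
  have h1 : Algebra.discr (RatFunc K) b' = algebraMap K[X] (RatFunc K) (Algebra.discr K[X] b) := by
    rw [Algebra.discr_def, Algebra.discr_def, RingHom.map_det]
    congr 1
    ext i j
    rw [RingHom.mapMatrix_apply, Matrix.map_apply, Algebra.traceMatrix_apply,
      Algebra.traceMatrix_apply, Algebra.traceForm_apply, Algebra.traceForm_apply]
    exact congrArg (algebraMap (RatFunc K) (RatFunc K)) (htr (b i * b j) (b' i * b' j) (by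
      rw [IntermediateField.coe_mul, hb', hb', Subalgebra.coe_mul]))
  intro h0
  have h2 := Algebra.discr_not_zero_of_basis (RatFunc K) b'
  rw [h1, h0, map_zero] at h2
  exact h2 rfl

theorem OVD : OVD_stmt := by
  intro K _ _ E _ _ _ _ _ _ _ _ J _ e he
  classical
  have hfin : Module.Finite K[X] (Algebra.adjoin K[X] (Set.range e)) :=
    Algebra.finite_adjoin_of_finite_of_isIntegral (Set.finite_range e) (by
      rintro _ ⟨j, rfl⟩
      exact he j)
  have hinjE : Function.Injective (algebraMap K[X] E) := by
    rw [IsScalarTower.algebraMap_eq K[X] (RatFunc K) E]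
    exact (algebraMap (RatFunc K) E).injective.comp (IsFractionRing.injective K[X] (RatFunc K))
  have htf : Module.IsTorsionFree K[X] E := by
    have : FaithfulSMul K[X] E := (faithfulSMul_iff_algebraMap_injective K[X] E).2 hinjE
    infer_instance
  have htf' : Module.IsTorsionFree K[X] (Algebra.adjoin K[X] (Set.range e)) := inferInstance
  have hfree : Module.Free K[X] (Algebra.adjoin K[X] (Set.range e)) := inferInstance
  let b := Module.Free.chooseBasis K[X] (Algebra.adjoin K[X] (Set.range e))
  have hd : Algebra.discr K[X] b ≠ 0 := OVD_discr (Set.range e) b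
  have hint : Algebra.IsIntegral K[X] (Algebra.adjoin K[X] (Set.range e)) := inferInstance
  refine ⟨(Algebra.discr K[X] b).roots.toFinset, fun C hC a ha hker p hp => ?_⟩
  have hle : Algebra.adjoin K (insert (algebraMap K[X] E X) (Set.range e)) ≤
      (Algebra.adjoin K[X] (Set.range e)).restrictScalars K := by
    apply Algebra.adjoin_le
    rintro x (rfl | hx)
    · exact (Algebra.adjoin K[X] (Set.range e)).algebraMap_mem X
    · have h1 : x ∈ Algebra.adjoin K[X] (Set.range e) := Algebra.subset_adjoin hx
      exact h1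
  have ha' : a ∈ Algebra.adjoin K[X] (Set.range e) := hle ha
  have hdvd : ∀ c ∈ C, ∀ i, (X - Polynomial.C c) ∣ b.repr ⟨a, ha'⟩ i := by
    intro c hc i
    have hroot : (Algebra.discr K[X] b).eval c ≠ 0 := by
      intro h0
      refine (Finset.disjoint_left.1 hC hc) ?_
      rw [Multiset.mem_toFinset, mem_roots hd]
      exact h0
    obtain ⟨N, r, hN⟩ := OVD_pt hint c (⟨a, ha'⟩ : Algebra.adjoin K[X] (Set.range e)) (by
      intro g hg
      let h : Algebra.adjoin K (insert (algebraMap K[X] E X) (Set.range e)) →ₐ[K] K :=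
        { toFun := fun x => g ⟨(x : E), hle x.2⟩
          map_one' := map_one g
          map_mul' := fun x y => map_mul g ⟨(x : E), hle x.2⟩ ⟨(y : E), hle y.2⟩
          map_zero' := map_zero g
          map_add' := fun x y => map_add g ⟨(x : E), hle x.2⟩ ⟨(y : E), hle y.2⟩
          commutes' := fun t => g.commutes t }
      exact hker h (by
        show g ⟨algebraMap K[X] E X, _⟩ ∈ C
        have h1 : g ⟨algebraMap K[X] E X, hle (Algebra.subset_adjoin (Set.mem_insert _ _))⟩ = c := hg
        rw [h1]
        exact hc))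
    exact OVD_fib b c hroot _ N r hN i
  have hP : ∀ i, (∏ c ∈ C, (X - Polynomial.C c)) ∣ b.repr ⟨a, ha'⟩ i := by
    intro i
    refine Finset.prod_dvd_of_coprime (fun c _ c' _ hcc => ?_) fun c hc => hdvd c hc i
    exact pairwise_coprime_X_sub_C Function.injective_id hcc
  choose q hq using hP
  have haq : a = algebraMap K[X] E (∏ c ∈ C, (X - Polynomial.C c)) *
      ((∑ i, q i • b i : Algebra.adjoin K[X] (Set.range e)) : E) := by
    have h1 := congrArg (fun z : Algebra.adjoin K[X] (Set.range e) => (z : E))
      (b.sum_repr ⟨a, ha'⟩)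
    simp only [AddSubmonoidClass.coe_finsetSum, Subalgebra.coe_smul] at h1
    rw [AddSubmonoidClass.coe_finsetSum, Finset.mul_sum]
    refine h1.symm.trans (Finset.sum_congr rfl fun i _ => ?_)
    rw [Subalgebra.coe_smul, hq i, Algebra.smul_def, Algebra.smul_def, map_mul, mul_assoc]
  have hint' : IsIntegral K[X] ((∑ i, q i • b i : Algebra.adjoin K[X] (Set.range e)) : E) :=
    (hint.isIntegral (∑ i, q i • b i)).map (Algebra.adjoin K[X] (Set.range e)).val
  obtain ⟨t, ht⟩ := (IsIntegrallyClosed.isIntegral_iff (R := K[X]) (K := RatFunc K)).1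
    (Algebra.isIntegral_norm (RatFunc K) hint')
  refine ⟨t, ?_⟩
  apply IsFractionRing.injective K[X] (RatFunc K)
  rw [← hp, map_mul, ht, map_pow, ← Algebra.norm_algebraMap (S := E), ← map_mul,
    ← IsScalarTower.algebraMap_apply, ← haq]

end Pool.Agent.helper26.IM
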